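import Pool.Agent.Helper46_MTG.Stab
import Pool.Agent.Helper78_MTG.Inv

/-! MT100-GEN, module HDF: assembly. -/

set_option autoImplicit false
set_option linter.unusedSectionVars false

namespace Pool.Agent.MT100G.H46

open MvPolynomial Matrix Module Pool.Agent.Helper78_MT Pool.Agent.Helper3_MT
  Pool.Agent.Helper46_MT Pool.Agent.MT100

universe u

/-- **HDF** -/
theorem hdf (hN : NrmStmt) : HdfStmt.{u} := by
  intro n _ _ w E V hw hV hcard hne
  obtain ⟨π, hπ, h1, h2, h3⟩ := proj_of hV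
  have hn : Nonempty n := Fintype.card_pos_iff.1 (by omega)
  have hE := det_ne hV
  have hE0 : E ≠ 0 := by
    rintro rfl
    rw [det_zero] at hE
    exact hE rfl
  have hEs : Eᵀ = -E := by
    have := hV.symm
    rwa [Odd.neg_one_pow hw, neg_one_smul] at this
  by_contra hno
  apply hne
  intro K _ _
  apply Set.eq_of_subset_of_subset (mt_sub hV hE0 K)
  intro X hX I hG hI
  have hI' : ∀ z : ℂ, z ≠ 0 → hz w π z ∈ zeros I ℂ := fun z hz0 => hI _ (hz_torus hπ h2 hz0)
  obtain ⟨d, Y, c, hc1, hc2, hc3, hc4⟩ := exists_orth (I := I) (E := E)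
    (fun X hX hX0 => trace_nd hV hw hπ h1 hG hI' hX hX0)
  have hob : OB I E Y c := ⟨hc1, hc2, hc3, hc4⟩
  have hinv : ∀ G ∈ Aut E, ∀ x : Fin 4 → n → ℂ, tv E Y c (fun j => G *ᵥ x j) = tv E Y c x := by
    intro G hG' x
    have h5 := Pool.Agent.MT100G.H78.inv_of_hodge hN hV hw hcard (tt E Y c) (by
      intro G hG' p x hx hp
      by_contra hne'
      apply hno
      refine ⟨tt E Y c, fun p x hx hp => ?_, G, hG', p, x, hx, hp, hne'⟩
      rw [tt_val]
      exact hob.hodge hπ hw.pos hG hI' h2 hV.top hx (by omega)) G hG' x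
    rw [tt_val, tt_val] at h5
    exact h5
  have hall := full_of_inv hn hV hw hπ h2 hG hI' hob hinv
  exact transfer hE0 (sim_mem hG hE hEs (fun c hc => scal_mem hπ hw.pos hI' hc) hall) K hX

end Pool.Agent.MT100G.H46
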