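import Pool.Agent.Helper46_MTG.Inv
import Pool.Agent.Helper46_MT.Final

/-! MT100-GEN, module HDF: if the tensor is invariant then the Lie algebra contains all the
transvections. -/

set_option autoImplicit false
set_option linter.unusedSectionVars false

namespace Pool.Agent.MT100G.H46

open MvPolynomial Matrix Module Pool.Agent.Helper78_MT Pool.Agent.Helper3_MT
  Pool.Agent.Helper46_MT Pool.Agent.MT100

variable {n : Type*} [Fintype n] [DecidableEq n] {w : ℕ} {E : Matrix n n ℚ}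
  {π : ℕ → Matrix n n ℂ} {V : ℕ → Submodule ℂ (n → ℂ)} {I : Set (MvPolynomial (n × n) ℚ)}
  {d : ℕ} {Y : Fin d → Matrix n n ℚ} {c : Fin d → ℚ}

theorem phi_entry {F : Matrix n n ℂ} (hF : IsUnit F.det) (a b : n) (Z : Matrix n n ℂ) :
    phi F ((F⁻¹)ᵀ *ᵥ Pi.single a 1) (Pi.single b 1) Z = Z a b := by
  rw [phi_apply, mulVec_transpose, ← dotProduct_mulVec, mulVec_mulVec, ← mul_assoc,
    nonsing_inv_mul F hF, one_mul]
  simp

/-- if the tensor is invariant, the Lie algebra is stable under conjugation -/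
theorem OB.stable (h : OB I E Y c) (hF : IsUnit (E.map (algebraMap ℚ ℂ)).det)
    {g g' : Matrix n n ℂ} (hgg : g * g' = 1)
    (hg : gᵀ * E.map (algebraMap ℚ ℂ) * g = E.map (algebraMap ℚ ℂ))
    (hinv : ∀ x : Fin 4 → n → ℂ, tv E Y c (fun j => g *ᵥ x j) = tv E Y c x) {Z : Matrix n n ℂ}
    (hZ : Z ∈ Ul I E) : g' * Z * g ∈ Ul I E := by
  obtain ⟨y, hy⟩ : ∃ y : Fin d → Matrix n n ℂ, ∀ i, y i = (Y i).map (algebraMap ℚ ℂ) :=
    ⟨_, fun _ => rfl⟩
  obtain ⟨k, hk⟩ : ∃ k : Fin d → ℂ, ∀ i, k i = (algebraMap ℚ ℂ (c i))⁻¹ := ⟨_, fun _ => rfl⟩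
  have hexp : ∀ Z ∈ Ul I E, Z = ∑ i, (k i * (Z * y i).trace) • y i := by
    intro Z hZ
    simp only [hy, hk]
    exact h.exp Z hZ
  have hmem : ∀ i, y i ∈ Ul I E := fun i => by rw [hy]; exact h.mem i
  have hsim : ∀ (u v : n → ℂ) (Z : Matrix n n ℂ), phi (E.map (algebraMap ℚ ℂ)) (g *ᵥ u) (g *ᵥ v) Z =
      phi (E.map (algebraMap ℚ ℂ)) u v (g' * Z * g) := by
    intro u v Z
    rw [phi_sim (μ := 1) hgg (by rw [hg, one_smul]), one_mul]
  have h1 : ∀ a b a' b', ∑ i, k i * (g' * y i * g) a b * (g' * y i * g) a' b' =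
      ∑ i, k i * y i a b * y i a' b' := by
    intro a b a' b'
    have h2 := hinv ![((E.map (algebraMap ℚ ℂ))⁻¹)ᵀ *ᵥ Pi.single a 1, Pi.single b 1,
      ((E.map (algebraMap ℚ ℂ))⁻¹)ᵀ *ᵥ Pi.single a' 1, Pi.single b' 1]
    rw [tv_phi, tv_phi] at h2
    simp only [hsim] at h2
    simp only [Matrix.cons_val_zero, Matrix.cons_val_one, Matrix.cons_val, phi_entry hF,
      ← hy, ← hk] at h2
    exact h2
  have h2 : ∀ a b (M : Matrix n n ℂ), ∑ i, k i * (g' * y i * g) a b * ((g' * y i * g) * M).trace =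
      ∑ i, k i * y i a b * (y i * M).trace := by
    intro a b M
    have e : ∀ (A M : Matrix n n ℂ), (A * M).trace = ∑ a', ∑ b', A a' b' * M b' a' := by
      intro A M
      rfl
    have e2 : ∀ (s : Fin d → ℂ) (A : Fin d → Matrix n n ℂ), ∑ i, s i * (A i * M).trace =
        ∑ a', ∑ b', (∑ i, s i * A i a' b') * M b' a' := by
      intro s A
      simp only [e, Finset.mul_sum, Finset.sum_mul]
      rw [Finset.sum_comm]
      apply Finset.sum_congr rfl
      intro a' _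
      rw [Finset.sum_comm]
      apply Finset.sum_congr rfl
      intro b' _
      apply Finset.sum_congr rfl
      intro i _
      ring
    rw [e2, e2]
    apply Finset.sum_congr rfl
    intro a' _
    apply Finset.sum_congr rfl
    intro b' _
    rw [h1]
  have h3 : ∀ j, g' * y j * g ∈ Ul I E := by
    intro j
    have h4 : g' * y j * g = ∑ i, (k i * (y i * (g' * y j * g)).trace) • y i := by
      ext a b
      have h5 := h2 a b (g' * y j * g)
      have h6 : ∀ i, ((g' * y i * g) * (g' * y j * g)).trace = if i = j then (c j : ℂ) else 0 := by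
        intro i
        have h7 : (g' * y i * g) * (g' * y j * g) = g' * (y i * y j * g) := by
          calc (g' * y i * g) * (g' * y j * g) = g' * y i * (g * g') * y j * g := by
                simp only [mul_assoc]
            _ = _ := by rw [hgg, mul_one]; simp only [mul_assoc]
        rw [h7, trace_mul_comm]
        have h8 : y i * y j * g * g' = y i * y j := by rw [mul_assoc, hgg, mul_one]
        rw [h8, hy, hy, trace_map, h.orth]
        by_cases hij : i = j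
        · rw [if_pos hij, if_pos hij, hij]
          rfl
        · rw [if_neg hij, if_neg hij, map_zero]
      simp only [h6, mul_ite, mul_zero, Finset.sum_ite_eq', Finset.mem_univ,
        if_true] at h5
      rw [Matrix.sum_apply]
      simp only [Matrix.smul_apply, smul_eq_mul]
      have h9 : k j * (c j : ℂ) = 1 := by
        rw [hk]
        exact inv_mul_cancel₀ ((map_ne_zero _).2 (h.ne j))
      have h10 : k j * (g' * y j * g) a b * (c j : ℂ) = (g' * y j * g) a b := by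
        calc k j * (g' * y j * g) a b * (c j : ℂ) = (k j * (c j : ℂ)) * (g' * y j * g) a b := by ring
          _ = _ := by rw [h9, one_mul]
      rw [h10] at h5
      rw [h5]
      apply Finset.sum_congr rfl
      intro i _
      ring
    rw [h4]
    exact Submodule.sum_mem _ fun i _ => Submodule.smul_mem _ _ (hmem i)
  have h4 : g' * Z * g = ∑ i, (k i * (Z * y i).trace) • (g' * y i * g) := by
    conv_lhs => rw [hexp Z hZ]
    rw [Finset.mul_sum, Finset.sum_mul]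
    apply Finset.sum_congr rfl
    intro i _
    rw [mul_smul_comm, smul_mul_assoc]
  rw [h4]
  exact Submodule.sum_mem _ fun i _ => Submodule.smul_mem _ _ (h3 i)

/-! ### Transvections -/

theorem skew_swap {F : Matrix n n ℂ} (hF : Fᵀ = -F) (u v : n → ℂ) :
    u ⬝ᵥ (F *ᵥ v) = -(v ⬝ᵥ (F *ᵥ u)) := by
  have h1 : v ⬝ᵥ (F *ᵥ u) = u ⬝ᵥ (Fᵀ *ᵥ v) := by
    rw [dotProduct_mulVec u Fᵀ, vecMul_transpose, dotProduct_comm]
  rw [h1, hF, neg_mulVec, dotProduct_neg, neg_neg]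

theorem mat_zero {A : Matrix n n ℂ} (h : ∀ u v : n → ℂ, u ⬝ᵥ (A *ᵥ v) = 0) : A = 0 := by
  ext i j
  have := h (Pi.single i 1) (Pi.single j 1)
  simpa using this

theorem Xom_sp {F : Matrix n n ℂ} (hF : Fᵀ = -F) (v : n → ℂ) :
    (Xom F v)ᵀ * F + F * Xom F v = 0 := by
  apply mat_zero
  intro x y
  rw [add_mulVec, dotProduct_add, ← mulVec_mulVec, ← mulVec_mulVec, Xom_mulVec, mulVec_smul,
    dotProduct_smul, dotProduct_mulVec x (Xom F v)ᵀ, vecMul_transpose, Xom_mulVec, smul_dotProduct,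
    smul_eq_mul, smul_eq_mul, skew_swap hF x v]
  ring

theorem trv_aut {F : Matrix n n ℂ} (hF : Fᵀ = -F) (v : n → ℂ) (ε : ℂ) :
    (1 + ε • Xom F v)ᵀ * F * (1 + ε • Xom F v) = F := by
  have h1 := Xom_sp hF v
  have h2 := Xom_sq hF v
  have h3 : (Xom F v)ᵀ * F = -(F * Xom F v) := eq_neg_of_add_eq_zero_left h1
  rw [transpose_add, transpose_one, transpose_smul, add_mul, one_mul, smul_mul_assoc, h3, add_mul,
    mul_add, mul_one, mul_smul_comm, smul_mul_assoc, mul_add, mul_one, neg_mul, mul_assoc,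
    mul_smul_comm, h2, smul_zero, mul_zero, neg_zero, add_zero]
  module

theorem trv_inv {F : Matrix n n ℂ} (hF : Fᵀ = -F) (v : n → ℂ) (ε : ℂ) :
    (1 + ε • Xom F v) * (1 + (-ε) • Xom F v) = 1 := by
  have h2 := Xom_sq hF v
  rw [add_mul, one_mul, mul_add, mul_one, smul_mul_smul_comm, h2, smul_zero, add_zero, add_assoc,
    ← add_smul, neg_add_cancel, zero_smul, add_zero]

theorem NXN {F X : Matrix n n ℂ} (v : n → ℂ) :
    Xom F v * X * Xom F v = (v ⬝ᵥ (F *ᵥ (X *ᵥ v))) • Xom F v := by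
  apply Matrix.ext_of_mulVec_single
  intro j
  rw [smul_mulVec, ← mulVec_mulVec, ← mulVec_mulVec, Xom_mulVec F v (Pi.single j 1), mulVec_smul,
    mulVec_smul, Xom_mulVec, smul_comm]

/-- a stable subspace which contains `X` contains the transvections along `v` with
`v F X v ≠ 0` -/
theorem Xom_of {U : Submodule ℂ (Matrix n n ℂ)} {F : Matrix n n ℂ} (hF : Fᵀ = -F)
    (hst : ∀ g g' : Matrix n n ℂ, g * g' = 1 → gᵀ * F * g = F → ∀ Z ∈ U, g' * Z * g ∈ U)
    {X : Matrix n n ℂ} (hX : X ∈ U) {v : n → ℂ} (hv : v ⬝ᵥ (F *ᵥ (X *ᵥ v)) ≠ 0) :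
    Xom F v ∈ U := by
  have h1 := hst _ _ (trv_inv hF v 1) (trv_aut hF v 1) X hX
  have h2 := hst _ _ (trv_inv hF v (-1)) (trv_aut hF v (-1)) X hX
  have h3 : (1 + (-1 : ℂ) • Xom F v) * X * (1 + (1 : ℂ) • Xom F v) +
      (1 + (-(-1) : ℂ) • Xom F v) * X * (1 + (-1 : ℂ) • Xom F v) =
      (2 : ℂ) • X - (2 * (v ⬝ᵥ (F *ᵥ (X *ᵥ v)))) • Xom F v := by
    have h4 := NXN (F := F) (X := X) v
    rw [mul_smul, ← h4]
    simp only [neg_neg, one_smul, neg_smul, mul_add, add_mul, mul_one, one_mul, neg_mul, mul_neg,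
      mul_assoc, two_smul]
    abel
  have h4 : (2 * (v ⬝ᵥ (F *ᵥ (X *ᵥ v)))) • Xom F v ∈ U := by
    have h5 : (2 * (v ⬝ᵥ (F *ᵥ (X *ᵥ v)))) • Xom F v = (2 : ℂ) • X -
        ((2 : ℂ) • X - (2 * (v ⬝ᵥ (F *ᵥ (X *ᵥ v)))) • Xom F v) := by
      rw [sub_sub_cancel]
    rw [h5, ← h3]
    exact U.sub_mem (U.smul_mem _ hX) (U.add_mem h1 h2)
  have h5 : (2 * (v ⬝ᵥ (F *ᵥ (X *ᵥ v)))) ≠ 0 := mul_ne_zero two_ne_zero hv
  exact (U.smul_mem_iff h5).1 h4

theorem exists_quad {F X : Matrix n n ℂ} (hFd : IsUnit F.det) (hF : Fᵀ = -F)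
    (hX : Xᵀ * F + F * X = 0) (hX0 : X ≠ 0) : ∃ v : n → ℂ, v ⬝ᵥ (F *ᵥ (X *ᵥ v)) ≠ 0 := by
  by_contra hno
  simp only [not_exists, not_not] at hno
  apply hX0
  have hsym : (F * X)ᵀ = F * X := by
    rw [transpose_mul, hF, mul_neg, eq_neg_of_add_eq_zero_left hX, neg_neg]
  have h1 : F * X = 0 := by
    apply mat_zero
    intro u v
    have h2 : ∀ z : n → ℂ, z ⬝ᵥ ((F * X) *ᵥ z) = 0 := fun z => by
      rw [← mulVec_mulVec]; exact hno z
    have h3 : v ⬝ᵥ ((F * X) *ᵥ u) = u ⬝ᵥ ((F * X) *ᵥ v) := by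
      conv_rhs => rw [← hsym]
      rw [dotProduct_mulVec u (F * X)ᵀ, vecMul_transpose, dotProduct_comm]
    have h4 := h2 (u + v)
    rw [mulVec_add, add_dotProduct, dotProduct_add, dotProduct_add, h2 u, h2 v, h3] at h4
    have h5 : (2 : ℂ) * (u ⬝ᵥ ((F * X) *ᵥ v)) = 0 := by linear_combination h4
    exact (mul_eq_zero.1 h5).resolve_left two_ne_zero
  calc X = F⁻¹ * (F * X) := by rw [← mul_assoc, nonsing_inv_mul F hFd, one_mul]
    _ = 0 := by rw [h1, mul_zero]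

theorem exists_pair {F : Matrix n n ℂ} (hFd : IsUnit F.det) {u : n → ℂ} (hu : u ≠ 0) :
    ∃ a : n → ℂ, u ⬝ᵥ (F *ᵥ a) ≠ 0 := by
  by_contra hno
  simp only [not_exists, not_not] at hno
  apply hu
  have h1 : u ᵥ* F = 0 := by
    ext j
    have := hno (Pi.single j 1)
    rw [dotProduct_mulVec] at this
    simpa using this
  have h2 : u ᵥ* (F * F⁻¹) = 0 := by rw [← vecMul_vecMul, h1, zero_vecMul]
  rwa [mul_nonsing_inv F hFd, vecMul_one] at h2

theorem Xom_every {U : Submodule ℂ (Matrix n n ℂ)} {F : Matrix n n ℂ} (hFd : IsUnit F.det)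
    (hF : Fᵀ = -F)
    (hst : ∀ g g' : Matrix n n ℂ, g * g' = 1 → gᵀ * F * g = F → ∀ Z ∈ U, g' * Z * g ∈ U)
    {X : Matrix n n ℂ} (hX : X ∈ U) (hXs : Xᵀ * F + F * X = 0) (hX0 : X ≠ 0) (u : n → ℂ) :
    Xom F u ∈ U := by
  obtain ⟨v, hv⟩ := exists_quad hFd hF hXs hX0
  have hv1 := Xom_of hF hst hX hv
  have hv0 : v ≠ 0 := by
    rintro rfl
    exact hv (zero_dotProduct _)
  by_cases hu : u = 0
  · rw [hu]
    have : Xom F (0 : n → ℂ) = 0 := by
      apply Matrix.ext_of_mulVec_single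
      intro j
      rw [Xom_mulVec, smul_zero, zero_mulVec]
    rw [this]
    exact U.zero_mem
  have step : ∀ a b : n → ℂ, Xom F a ∈ U → a ⬝ᵥ (F *ᵥ b) ≠ 0 → Xom F b ∈ U := by
    intro a b ha hab
    apply Xom_of hF hst ha
    rw [Xom_mulVec, mulVec_smul, dotProduct_smul, skew_swap hF b a, smul_eq_mul]
    exact mul_ne_zero hab (neg_ne_zero.2 hab)
  obtain ⟨a, ha⟩ := exists_pair hFd hv0
  obtain ⟨b, hb⟩ := exists_pair hFd hu
  have hfin : ∀ z : n → ℂ, v ⬝ᵥ (F *ᵥ z) ≠ 0 → u ⬝ᵥ (F *ᵥ z) ≠ 0 → Xom F u ∈ U := by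
    intro z h1 h2
    apply step z u (step v z hv1 h1)
    rw [skew_swap hF z u]
    exact neg_ne_zero.2 h2
  by_cases h1 : v ⬝ᵥ (F *ᵥ b) = 0
  · by_cases h2 : u ⬝ᵥ (F *ᵥ a) = 0
    · apply hfin (a + b)
      · rw [mulVec_add, dotProduct_add, h1, add_zero]
        exact ha
      · rw [mulVec_add, dotProduct_add, h2, zero_add]
        exact hb
    · exact hfin a ha h2
  · exact hfin b h1 hb

/-- `Phi'` on the pieces -/
theorem Phi'_piece (h : Proj w E π) (h2 : ∀ p, ∀ x ∈ V p, π p *ᵥ x = x) {p : ℕ} (hp : p ≤ w)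
    {x : n → ℂ} (hx : x ∈ V p) : Phi' w π *ᵥ x = ((p : ℂ) - (w : ℂ) / 2) • x := by
  unfold Phi' Phi
  rw [sub_mulVec, smul_mulVec, one_mulVec, sub_smul]
  congr 1
  conv_lhs => rw [← h2 p x hx]
  rw [mulVec_mulVec, h.mul_sum (fun p => (p : ℂ)) hp, smul_mulVec, h2 p x hx]

theorem exists_piece (hn : Nonempty n) (hV : PolHodge w E V) :
    ∃ p ≤ w, ∃ x ∈ V p, x ≠ 0 := by
  by_contra hno
  simp only [not_exists, not_and, not_not] at hno
  have h1 : ∀ p, V p = ⊥ := by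
    intro p
    by_cases hp : p ≤ w
    · rw [eq_bot_iff]
      intro x hx
      rw [Submodule.mem_bot]
      exact hno p hp x hx
    · exact hV.top p (by omega)
  have h2 := hV.span
  simp only [h1, iSup_bot] at h2
  obtain ⟨i⟩ := hn
  have h3 : (Pi.single i 1 : n → ℂ) ∈ (⊤ : Submodule ℂ (n → ℂ)) := trivial
  rw [← h2, Submodule.mem_bot] at h3
  have h4 := congrFun h3 i
  simp at h4

theorem Phi'_ne (hn : Nonempty n) (hV : PolHodge w E V) (hw : Odd w) (h : Proj w E π)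
    (h2 : ∀ p, ∀ x ∈ V p, π p *ᵥ x = x) : Phi' w π ≠ 0 := by
  intro h0
  obtain ⟨p, hp, x, hx, hx0⟩ := exists_piece hn hV
  have h3 := Phi'_piece h h2 hp hx
  rw [h0, zero_mulVec] at h3
  rcases smul_eq_zero.1 h3.symm with h4 | h4
  · have h5 : (2 : ℂ) * p = w := by linear_combination 2 * h4
    have h6 : 2 * p = w := by exact_mod_cast h5
    obtain ⟨k, hk⟩ := hw
    omega
  · exact hx0 h4

/-- **(R)**: if the tensor is invariant then the Lie algebra contains all the transvections -/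
theorem full_of_inv (hn : Nonempty n) (hV : PolHodge w E V) (hw : Odd w) (hπ : Proj w E π)
    (h2 : ∀ p, ∀ x ∈ V p, π p *ᵥ x = x) (hG : IsAlgSubgroup I)
    (hI : ∀ z : ℂ, z ≠ 0 → hz w π z ∈ zeros I ℂ) (h : OB I E Y c)
    (hinv : ∀ G ∈ Aut E, ∀ x : Fin 4 → n → ℂ, tv E Y c (fun j => G *ᵥ x j) = tv E Y c x)
    (u : n → ℂ) : Xom (E.map (algebraMap ℚ ℂ)) u ∈ Ul I E := by
  have hEs : Eᵀ = -E := by
    have := hV.symm
    rwa [Odd.neg_one_pow hw, neg_one_smul] at this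
  have hFd := det_map (det_ne hV)
  have hX := Phi'_mem hπ hw.pos hG hI
  exact Xom_every hFd (skew_map hEs)
    (fun g g' hgg hg Z hZ => h.stable hFd hgg hg (fun x => hinv g hg x) hZ) hX hX.2
    (Phi'_ne hn hV hw hπ h2) u

end Pool.Agent.MT100G.H46
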