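import Pool.Agent.Helper43_MT100G.Bas
import Pool.Agent.Helper78_MTG.ExStmts

/-! MT100-GEN, module EX3: the monodromy at infinity. -/

set_option autoImplicit false

namespace Pool.Agent.MT100G.H46

open Matrix Polynomial Pool.Agent.MT100 Pool.Agent.MT100G.H43

variable {d : Type} [Fintype d] [DecidableEq d]

/-- the solution near infinity for a branch `l` of the logarithm -/
noncomputable def YL (H : Matrix d d (PowerSeries ℚ)) (N : Matrix d d ℤ) (l : ℂ → ℂ) (w : ℂ) :
    Matrix d d ℂ :=
  H.map (fun f => evC f w⁻¹) * eN N (-(l w))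

/-- the solutions near infinity -/
theorem bas_gen {H K : Matrix d d (PowerSeries ℚ)} {N : Matrix d d ℤ} {q : ℤ[X]}
    {B : Matrix d d ℤ[X]} (hS : GSys H K N q B) : ∃ R : ℝ, 0 < R ∧
    ∀ (c : ℂ) (ρ : ℝ) (l : ℂ → ℂ), 0 < ρ → (∀ w ∈ Metric.ball c ρ, R < ‖w‖) →
      (∀ w ∈ Metric.ball c ρ, HasDerivAt l w⁻¹ w) → SolOn q B c ρ (YL H N l) := by
  -- radii
  have hH := fun i j => gtype_near (hS.gH i j)
  have hK := fun i j => gtype_near (hS.gK i j)
  choose δH hδH hHx using hH
  choose δK hδK hKx using hK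
  obtain ⟨δq, hδq, hqx⟩ := zC_ne q hS.q0
  obtain ⟨δ, hδ, hδl⟩ : ∃ δ : ℝ, 0 < δ ∧ δ ≤ δq ∧ ∀ i j, δ ≤ δH i j ∧ δ ≤ δK i j := by
    have h1 : ∀ s : Finset (d × d), ∃ δ : ℝ, 0 < δ ∧ δ ≤ δq ∧
        ∀ p ∈ s, δ ≤ δH p.1 p.2 ∧ δ ≤ δK p.1 p.2 := by
      intro s
      classical
      induction s using Finset.induction_on with
      | empty => exact ⟨δq, hδq, le_rfl, fun p hp => absurd hp (Finset.notMem_empty p)⟩
      | insert a s ha ih =>
        obtain ⟨δ, h1, h2, h3⟩ := ih
        refine ⟨min δ (min (δH a.1 a.2) (δK a.1 a.2)), lt_min h1 (lt_min (hδH _ _) (hδK _ _)),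
          (min_le_left _ _).trans h2, fun p hp => ?_⟩
        rcases Finset.mem_insert.mp hp with rfl | hp
        · exact ⟨(min_le_right _ _).trans (min_le_left _ _),
            (min_le_right _ _).trans (min_le_right _ _)⟩
        · exact ⟨(min_le_left _ _).trans (h3 p hp).1, (min_le_left _ _).trans (h3 p hp).2⟩
    obtain ⟨δ, h1, h2, h3⟩ := h1 Finset.univ
    exact ⟨δ, h1, h2, fun i j => h3 (i, j) (Finset.mem_univ _)⟩
  have hgood : ∀ w : ℂ, 1 / δ < ‖w‖ → ‖w⁻¹‖ < δ ∧ w ≠ 0 := by
    intro w hw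
    have h0 : 0 < ‖w‖ := lt_trans (by positivity) hw
    have hw0 : w ≠ 0 := norm_pos_iff.mp h0
    refine ⟨?_, hw0⟩
    rw [norm_inv, inv_lt_comm₀ h0 hδ, ← one_div]
    exact hw
  refine ⟨1 / δ, by positivity, ?_⟩
  · intro c ρ l hρ hsub hl
    have hd : ∀ w ∈ Metric.ball c ρ, IsUnit (YL H N l w).det := by
      intro w hw
      obtain ⟨h1, h2⟩ := hgood w (hsub w hw)
      have hA : ∀ i j, AC (H i j) w⁻¹ := fun i j =>
        (hHx i j w⁻¹ (lt_of_lt_of_le h1 (hδl.2 i j).1)).1
      have hA' : ∀ i j, AC (K i j) w⁻¹ := fun i j =>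
        (hKx i j w⁻¹ (lt_of_lt_of_le h1 (hδl.2 i j).2)).1
      have hHK : H.map (fun f => evC f w⁻¹) * K.map (fun f => evC f w⁻¹) = 1 := by
        rw [← (ac_mmul hA hA').2, hS.inv]
        ext i j
        rw [Matrix.map_apply, Matrix.one_apply, Matrix.one_apply]
        by_cases hij : i = j
        · rw [if_pos hij, if_pos hij]
          have := (ac_int 1 w⁻¹).2
          rwa [Int.cast_one, Int.cast_one] at this
        · rw [if_neg hij, if_neg hij]
          have := (ac_int 0 w⁻¹).2
          rwa [Int.cast_zero, Int.cast_zero] at this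
      unfold YL
      rw [Matrix.det_mul]
      refine IsUnit.mul ?_ ?_
      · have := congrArg Matrix.det hHK
        rw [Matrix.det_mul, Matrix.det_one] at this
        exact IsUnit.of_mul_eq_one _ this
      · have := congrArg Matrix.det (eN_mul_neg N hS.nil (-(l w)))
        rw [Matrix.det_mul, Matrix.det_one] at this
        exact IsUnit.of_mul_eq_one _ this
    refine ⟨hρ, fun w hw => ?_, hd, fun w hw i j => ?_⟩
    · obtain ⟨h1, h2⟩ := hgood w (hsub w hw)
      exact ⟨h2, hqx _ (lt_of_lt_of_le h1 hδl.1) (inv_ne_zero h2)⟩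
    · obtain ⟨h1, h2⟩ := hgood w (hsub w hw)
      have hq1 : zC q w⁻¹ ≠ 0 := hqx _ (lt_of_lt_of_le h1 hδl.1) (inv_ne_zero h2)
      have hA := fun i j => hHx i j w⁻¹ (lt_of_lt_of_le h1 (hδl.2 i j).1)
      have hlog : HasDerivAt (fun x => -(l x)) (-w⁻¹) w := (hl w hw).neg
      have hinv : HasDerivAt (fun x : ℂ => x⁻¹) (-(w ^ 2)⁻¹) w := hasDerivAt_inv h2
      have hD : HasDerivAt (fun x => YL H N l x i j)
          (∑ k, (evC (dv (H i k)) w⁻¹ * (-(w ^ 2)⁻¹) * eN N (-(l w)) k j +
            evC (H i k) w⁻¹ *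
              ((N.map (fun y : ℤ => (y : ℂ)) * eN N (-(l w))) k j * (-w⁻¹)))) w := by
        have he : (fun x => YL H N l x i j) =
            fun x => ∑ k, evC (H i k) x⁻¹ * eN N (-(l x)) k j := by
          funext x
          unfold YL
          rw [Matrix.mul_apply]
          rfl
        rw [he]
        refine HasDerivAt.fun_sum fun k _ => ?_
        refine HasDerivAt.mul ?_ ?_
        · exact HasDerivAt.comp w (hA i k).2.2 hinv
        · exact HasDerivAt.comp w (eN_deriv N hS.nil (-(l w)) k j) hlog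
      refine hD.congr_deriv ?_
      -- the differential equation
      set Em := eN N (-(l w)) with hEm
      set Nm : Matrix d d ℂ := N.map (fun y : ℤ => (y : ℂ)) with hNm
      set Hm : Matrix d d ℂ := H.map (fun f => evC f w⁻¹) with hHm
      set Hd : Matrix d d ℂ := H.map (fun f => evC (dv f) w⁻¹) with hHd
      set Bm : Matrix d d ℂ := B.map (fun p => zC p w⁻¹) with hBm
      have hode : (zC q w⁻¹ * w⁻¹) • Hd = Bm * Hm - zC q w⁻¹ • (Hm * Nm) := by
        ext a b
        have h4 := congrArg (fun M : Matrix d d (PowerSeries ℚ) => evC (M a b) w⁻¹) hS.ode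
        simp only [Matrix.smul_apply, Matrix.sub_apply, Matrix.map_apply, smul_eq_mul] at h4
        have hBH := ac_mmul (A := B.map zp) (B := H) (x := w⁻¹)
          (fun i j => (ac_zp (B i j) w⁻¹).1) (fun i j => (hA i j).1)
        have hHN := ac_mmul (A := H) (B := N.map (fun x => (x : PowerSeries ℚ))) (x := w⁻¹)
          (fun i j => (hA i j).1) (fun i j => (ac_int (N i j) w⁻¹).1)
        have hqX := ac_mul (ac_zp q w⁻¹).1 (ac_X w⁻¹).1
        have h5 := ac_mul hqX.1 (hA a b).2.1
        have h6 := ac_mul (ac_zp q w⁻¹).1 (hHN.1 a b)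
        have h7 := ac_sub (hBH.1 a b) h6.1
        rw [h5.2, hqX.2, (ac_zp q w⁻¹).2, (ac_X w⁻¹).2, h7.2, h6.2, (ac_zp q w⁻¹).2] at h4
        have h8 : evC ((B.map zp * H) a b) w⁻¹ = (Bm * Hm) a b := by
          have := congrFun (congrFun hBH.2 a) b
          rw [Matrix.map_apply] at this
          rw [this]
          have h9 : (B.map zp).map (fun f => evC f w⁻¹) = Bm := by
            ext a b
            simp only [Matrix.map_apply, hBm]
            exact (ac_zp _ _).2
          rw [h9]
        have h9 : evC ((H * N.map (fun x => (x : PowerSeries ℚ))) a b) w⁻¹ = (Hm * Nm) a b := by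
          have := congrFun (congrFun hHN.2 a) b
          rw [Matrix.map_apply] at this
          rw [this]
          have h9 : (N.map (fun x => (x : PowerSeries ℚ))).map (fun f => evC f w⁻¹) = Nm := by
            ext a b
            simp only [Matrix.map_apply, hNm]
            exact (ac_int _ _).2
          rw [h9]
        rw [h8, h9] at h4
        simp only [Matrix.smul_apply, Matrix.sub_apply, smul_eq_mul, hHd, Matrix.map_apply]
        exact h4
      have hsum : (∑ k, (evC (dv (H i k)) w⁻¹ * (-(w ^ 2)⁻¹) * Em k j +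
            evC (H i k) w⁻¹ * ((Nm * Em) k j * (-w⁻¹)))) =
          (-(w ^ 2)⁻¹) * (Hd * Em) i j + (-w⁻¹) * (Hm * (Nm * Em)) i j := by
        rw [Finset.sum_add_distrib, Matrix.mul_apply, Matrix.mul_apply, Finset.mul_sum,
          Finset.mul_sum]
        congr 1
        · refine Finset.sum_congr rfl fun k _ => ?_
          simp only [hHd, Matrix.map_apply]
          ring
        · refine Finset.sum_congr rfl fun k _ => ?_
          simp only [hHm, Matrix.map_apply]
          ring
      rw [hsum]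
      have hY : YL H N l w = Hm * Em := rfl
      rw [hY]
      have h10 : w⁻¹ * (Hd * Em) i j =
          (zC q w⁻¹)⁻¹ * (Bm * (Hm * Em)) i j - (Hm * (Nm * Em)) i j := by
        have h11 := congrArg (fun M : Matrix d d ℂ => (M * Em) i j) hode
        simp only [Matrix.smul_mul, Matrix.sub_mul, Matrix.smul_apply, Matrix.sub_apply,
          smul_eq_mul, Matrix.mul_assoc] at h11
        have key : ∀ (Q x a b c : ℂ), Q ≠ 0 → Q * x * a = b - Q * c → x * a = Q⁻¹ * b - c := by
          intro Q x a b c hQ h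
          have : b = Q * x * a + Q * c := by rw [h]; ring
          rw [this]
          field_simp
          ring
        exact key _ _ _ _ _ hq1 h11
      have h13 : (w ^ 2)⁻¹ * (Hd * Em) i j = w⁻¹ * (w⁻¹ * (Hd * Em) i j) := by
        field_simp
      rw [neg_mul, h13, h10, mul_inv]
      ring

theorem eN_add (N : Matrix d d ℤ) (hN : IsNilpotent N) (x y : ℂ) :
    eN N (x + y) = eN N x * eN N y := by
  rw [(Helper65MT100.eN_eq hN x).1, (Helper65MT100.eN_eq hN y).1,
    (Helper65MT100.eN_eq hN (x + y)).1, add_smul]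
  refine IsNilpotent.exp_add_of_commute ?_ (Helper65MT100.eN_eq hN x).2
    (Helper65MT100.eN_eq hN y).2
  exact ((Commute.refl (N.map (fun y : ℤ => (y : ℂ)))).smul_left x).smul_right y

/-- the branch of the logarithm near the argument `θ` -/
noncomputable def lg (θ : ℝ) (w : ℂ) : ℂ := Complex.log (w * Complex.exp (-(θ * Complex.I))) +
  θ * Complex.I

theorem rot_ball {c θ ρ : ℝ} {w : ℂ} (hw : w ∈ Metric.ball ((c : ℂ) * Complex.exp (θ * Complex.I)) ρ) :
    w * Complex.exp (-(θ * Complex.I)) ∈ Metric.ball (c : ℂ) ρ := by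
  rw [Metric.mem_ball, dist_eq_norm] at hw ⊢
  have h1 : w * Complex.exp (-(θ * Complex.I)) - c =
      (w - (c : ℂ) * Complex.exp (θ * Complex.I)) * Complex.exp (-(θ * Complex.I)) := by
    rw [sub_mul, mul_assoc, ← Complex.exp_add, add_neg_cancel, Complex.exp_zero, mul_one]
  have h2 : ‖Complex.exp (-(θ * Complex.I))‖ = 1 := by
    have : -((θ : ℂ) * Complex.I) = ((-θ : ℝ) : ℂ) * Complex.I := by push_cast; ring
    rw [this, Complex.norm_exp_ofReal_mul_I]
  rw [h1, norm_mul, h2, mul_one]
  exact hw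

theorem ball_re {c : ℝ} {w : ℂ} (hw : w ∈ Metric.ball (c : ℂ) 1) : c - 1 < w.re := by
  rw [Metric.mem_ball, dist_eq_norm] at hw
  have h1 : |(w - c).re| ≤ ‖w - c‖ := Complex.abs_re_le_norm _
  have h2 : (w - c).re = w.re - c := by simp
  rw [h2] at h1
  have := abs_lt.1 (lt_of_le_of_lt h1 hw)
  linarith [this.1]

/-- X3 -/
theorem ex3 : Ex3Stmt := by
  intro d _ _ H K N q B hS
  obtain ⟨R, hR, hsol⟩ := bas_gen hS
  change ∀ᶠ c : ℝ in Filter.atTop, _
  filter_upwards [Filter.eventually_gt_atTop (R + 1)] with c hc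
  have hc1 : 1 < c := by linarith
  have hpi := Real.pi_pos
  obtain ⟨M, hM⟩ := exists_nat_gt (c * (2 * Real.pi) + 8)
  have hM0 : (0 : ℝ) < M := by nlinarith
  obtain ⟨η, hη⟩ : ∃ η : ℝ, η = 2 * Real.pi / M := ⟨_, rfl⟩
  have hη0 : 0 < η := by rw [hη]; positivity
  have hη1 : c * η < 1 := by
    rw [hη, ← mul_div_assoc, div_lt_one hM0]
    linarith
  have hη2 : η < Real.pi / 2 := by
    rw [hη, div_lt_div_iff₀ hM0 two_pos]
    have h8 : (8 : ℝ) < M := by nlinarith
    nlinarith
  have hMη : (M : ℝ) * η = 2 * Real.pi := by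
    rw [hη]
    field_simp
  -- the points of the chain
  let P : ℕ → ℂ × ℝ × (ℂ → Matrix d d ℂ) := fun k =>
    ((c : ℂ) * Complex.exp (((k * η : ℝ) : ℂ) * Complex.I), 1, YL H N (lg (k * η)))
  have hwa : ∀ k : ℕ, ∀ w ∈ Metric.ball ((c : ℂ) * Complex.exp (((k * η : ℝ) : ℂ) * Complex.I)) 1,
      R < (w * Complex.exp (-(((k * η : ℝ) : ℂ) * Complex.I))).re := by
    intro k w hw
    have := ball_re (rot_ball hw)
    linarith
  have hnorm : ∀ (θ : ℝ) (w : ℂ), ‖w * Complex.exp (-((θ : ℂ) * Complex.I))‖ = ‖w‖ := by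
    intro θ w
    have : -((θ : ℂ) * Complex.I) = ((-θ : ℝ) : ℂ) * Complex.I := by push_cast; ring
    rw [norm_mul, this, Complex.norm_exp_ofReal_mul_I, mul_one]
  have hPs : ∀ k, SolOn q B (P k).1 (P k).2.1 (P k).2.2 := by
    intro k
    apply hsol _ _ _ one_pos
    · intro w hw
      have h1 := hwa k w hw
      calc R < _ := h1
        _ ≤ ‖w * Complex.exp (-(((k * η : ℝ) : ℂ) * Complex.I))‖ := Complex.re_le_norm _
        _ = ‖w‖ := hnorm _ _
    · intro w hw
      have h1 := hwa k w hw
      have h2 : w * Complex.exp (-(((k * η : ℝ) : ℂ) * Complex.I)) ∈ Complex.slitPlane :=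
        Or.inl (by linarith)
      have h3 : HasDerivAt (fun x : ℂ => x * Complex.exp (-(((k * η : ℝ) : ℂ) * Complex.I)))
          (Complex.exp (-(((k * η : ℝ) : ℂ) * Complex.I))) w := by
        have := (hasDerivAt_id w).mul_const (Complex.exp (-(((k * η : ℝ) : ℂ) * Complex.I)))
        rwa [one_mul] at this
      have h4 := (h3.clog h2).add_const ((((k * η : ℝ) : ℂ) * Complex.I))
      have h5 : Complex.exp (-(((k * η : ℝ) : ℂ) * Complex.I)) ≠ 0 := Complex.exp_ne_zero _
      have h6 : w ≠ 0 := by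
        rintro rfl
        rw [zero_mul] at h1
        simp only [Complex.zero_re] at h1
        linarith
      have h7 : Complex.exp (-(((k * η : ℝ) : ℂ) * Complex.I)) /
          (w * Complex.exp (-(((k * η : ℝ) : ℂ) * Complex.I))) = w⁻¹ := by
        field_simp
      rw [h7] at h4
      exact h4
  have hstep : ∀ k, Stp q B Set.univ (P k) (P (k + 1)) := by
    intro k
    refine ⟨hPs k, hPs (k + 1), Set.subset_univ _, Set.subset_univ _, ?_, ?_⟩
    · refine ⟨(P (k + 1)).1, ?_, Metric.mem_ball_self one_pos⟩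
      rw [Metric.mem_ball, dist_eq_norm]
      change ‖(c : ℂ) * Complex.exp ((((k + 1 : ℕ) * η : ℝ) : ℂ) * Complex.I) -
        (c : ℂ) * Complex.exp (((k * η : ℝ) : ℂ) * Complex.I)‖ < 1
      have h1 : (c : ℂ) * Complex.exp ((((k + 1 : ℕ) * η : ℝ) : ℂ) * Complex.I) -
          (c : ℂ) * Complex.exp (((k * η : ℝ) : ℂ) * Complex.I) =
          (c : ℂ) * (Complex.exp (((k * η : ℝ) : ℂ) * Complex.I) *
            (Complex.exp ((η : ℂ) * Complex.I) - 1)) := by
        have h2 : (((k + 1 : ℕ) * η : ℝ) : ℂ) * Complex.I =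
            ((k * η : ℝ) : ℂ) * Complex.I + (η : ℂ) * Complex.I := by
          push_cast
          ring
        rw [h2, Complex.exp_add]
        ring
      rw [h1, norm_mul, norm_mul, Complex.norm_exp_ofReal_mul_I, one_mul, Complex.norm_real,
        Real.norm_eq_abs, abs_of_pos (by linarith)]
      have h3 : ‖Complex.exp ((η : ℂ) * Complex.I) - 1‖ ≤ η := by
        have := Real.norm_exp_I_mul_ofReal_sub_one_le (x := η)
        rw [mul_comm] at this
        rwa [Real.norm_eq_abs, abs_of_pos hη0] at this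
      calc c * ‖Complex.exp ((η : ℂ) * Complex.I) - 1‖ ≤ c * η :=
            mul_le_mul_of_nonneg_left h3 (by linarith)
        _ < 1 := hη1
    · rintro w ⟨hw1, hw2⟩
      change YL H N (lg (k * η)) w = YL H N (lg ((k + 1 : ℕ) * η)) w
      unfold YL
      congr 3
      unfold lg
      obtain ⟨z, hz⟩ : ∃ z : ℂ, z = w * Complex.exp (-(((k * η : ℝ) : ℂ) * Complex.I)) := ⟨_, rfl⟩
      have h1 : w * Complex.exp (-((((k + 1 : ℕ) * η : ℝ) : ℂ) * Complex.I)) =
          z * Complex.exp (((-η : ℝ) : ℂ) * Complex.I) := by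
        have h2 : -((((k + 1 : ℕ) * η : ℝ) : ℂ) * Complex.I) =
            -(((k * η : ℝ) : ℂ) * Complex.I) + ((-η : ℝ) : ℂ) * Complex.I := by
          push_cast
          ring
        rw [h2, Complex.exp_add, hz]
        ring
      have hzre : 0 < z.re := by
        rw [hz]
        have := hwa k w hw1
        linarith
      have hz0 : z ≠ 0 := by
        rintro h0
        rw [h0] at hzre
        simp at hzre
      have harg := Complex.abs_arg_lt_pi_div_two_iff.2 (Or.inl hzre)
      have harg' := abs_lt.1 harg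
      have hl : Complex.log (Complex.exp (((-η : ℝ) : ℂ) * Complex.I)) =
          ((-η : ℝ) : ℂ) * Complex.I := by
        apply Complex.log_exp
        · simp
          linarith
        · simp
          linarith
      have he : Complex.arg (Complex.exp (((-η : ℝ) : ℂ) * Complex.I)) = -η := by
        rw [← Complex.log_im, hl]
        simp
      rw [h1, Complex.log_mul hz0 (Complex.exp_ne_zero _) (by
        rw [he]
        constructor <;> linarith [harg'.1, harg'.2]), ← hz]
      rw [hl]
      push_cast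
      ring
  have hchain : ∀ k, Cnt q B Set.univ (P 0) (P k) := by
    intro k
    induction k with
    | zero => exact Relation.ReflTransGen.refl
    | succ k ih => exact ih.tail (hstep k)
  have h0 : P 0 = ((c : ℂ), 1, YH H N) := by
    change ((c : ℂ) * Complex.exp ((((0 : ℕ) * η : ℝ) : ℂ) * Complex.I), 1,
      YL H N (lg ((0 : ℕ) * η))) = ((c : ℂ), 1, YH H N)
    have e1 : (((0 : ℕ) : ℝ) * η) = 0 := by simp
    rw [e1]
    have e2 : YL H N (lg 0) = YH H N := by
      funext w
      unfold YL YH lg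
      simp
    rw [e2]
    simp
  have h1 : P M = ((c : ℂ), 1, fun w => YH H N w * eN N (-(2 * Real.pi * Complex.I) : ℂ)) := by
    change ((c : ℂ) * Complex.exp (((M * η : ℝ) : ℂ) * Complex.I), 1, YL H N (lg (M * η))) = _
    rw [hMη]
    have e3 : Complex.exp (((2 * Real.pi : ℝ) : ℂ) * Complex.I) = 1 := by
      push_cast
      exact Complex.exp_two_pi_mul_I
    have e4 : Complex.exp (-(((2 * Real.pi : ℝ) : ℂ) * Complex.I)) = 1 := by
      rw [Complex.exp_neg, e3, inv_one]
    have e2 : YL H N (lg (2 * Real.pi)) =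
        fun w => YH H N w * eN N (-(2 * Real.pi * Complex.I) : ℂ) := by
      funext w
      unfold YL YH lg
      rw [e4, mul_one, mul_assoc, ← eN_add N hS.nil]
      congr 2
      push_cast
      ring
    rw [e2, e3, mul_one]
  have h2 := hchain M
  rw [h0, h1] at h2
  exact h2

end Pool.Agent.MT100G.H46
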