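import Pool.Agent.Helper46_MTG.Pos

/-! MT100-GEN, module HDF: a rational orthogonal basis of the Lie algebra, and the tensor of degree
four. -/

set_option autoImplicit false
set_option linter.unusedSectionVars false

namespace Pool.Agent.MT100G.H46

open MvPolynomial Matrix Module Pool.Agent.Helper78_MT Pool.Agent.Helper3_MT
  Pool.Agent.Helper46_MT Pool.Agent.MT100

variable {n : Type*} [Fintype n] [DecidableEq n] {w : ℕ} {E : Matrix n n ℚ}
  {π : ℕ → Matrix n n ℂ} {V : ℕ → Submodule ℂ (n → ℂ)} {I : Set (MvPolynomial (n × n) ℚ)}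

/-- the rational points of the Lie algebra -/
def UQ (I : Set (MvPolynomial (n × n) ℚ)) (E : Matrix n n ℚ) : Submodule ℚ (Matrix n n ℚ) where
  carrier := {Y | Y.map (algebraMap ℚ ℂ) ∈ Ul I E}
  zero_mem' := by
    change (0 : Matrix n n ℚ).map (algebraMap ℚ ℂ) ∈ Ul I E
    rw [Matrix.map_zero _ (map_zero _)]
    exact Submodule.zero_mem _
  add_mem' := by
    intro A B hA hB
    change (A + B).map (algebraMap ℚ ℂ) ∈ Ul I E
    rw [Matrix.map_add _ (map_add _)]
    exact Submodule.add_mem _ hA hB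
  smul_mem' := by
    intro c A hA
    change (c • A).map (algebraMap ℚ ℂ) ∈ Ul I E
    have : (c • A).map (algebraMap ℚ ℂ) = (algebraMap ℚ ℂ c) • A.map (algebraMap ℚ ℂ) := by
      ext i j
      simp
    rw [this]
    exact Submodule.smul_mem _ _ hA

theorem mem_UQ {Y : Matrix n n ℚ} : Y ∈ UQ I E ↔ Y.map (algebraMap ℚ ℂ) ∈ Ul I E := Iff.rfl

/-- the trace form -/
noncomputable def tf (I : Set (MvPolynomial (n × n) ℚ)) (E : Matrix n n ℚ) :
    LinearMap.BilinForm ℚ (UQ I E) :=
  LinearMap.mk₂ ℚ (fun X Y => ((X : Matrix n n ℚ) * (Y : Matrix n n ℚ)).trace)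
    (fun a b c => by rw [Submodule.coe_add, add_mul, trace_add])
    (fun r a b => by rw [Submodule.coe_smul, smul_mul_assoc, trace_smul])
    (fun a b c => by rw [Submodule.coe_add, mul_add, trace_add])
    (fun r a b => by rw [Submodule.coe_smul, mul_smul_comm, trace_smul])

theorem tf_apply (X Y : UQ I E) : tf I E X Y = ((X : Matrix n n ℚ) * (Y : Matrix n n ℚ)).trace :=
  rfl

theorem trace_map (A B : Matrix n n ℚ) :
    (A.map (algebraMap ℚ ℂ) * B.map (algebraMap ℚ ℂ)).trace = algebraMap ℚ ℂ (A * B).trace := by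
  rw [← Matrix.map_mul]
  simp only [Matrix.trace, Matrix.diag_apply, Matrix.map_apply, map_sum]

/-- the rational elements span, as a sum over a rational basis -/
theorem exists_orth (nd : ∀ X ∈ Ul I E, (∀ Y ∈ Ul I E, (X * Y).trace = 0) → X = 0) :
    ∃ (d : ℕ) (Y : Fin d → Matrix n n ℚ) (c : Fin d → ℚ), (∀ i, c i ≠ 0) ∧
      (∀ i, (Y i).map (algebraMap ℚ ℂ) ∈ Ul I E) ∧
      (∀ i j, (Y i * Y j).trace = if i = j then c i else 0) ∧
      ∀ Z ∈ Ul I E, Z = ∑ i, ((algebraMap ℚ ℂ (c i))⁻¹ *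
        (Z * (Y i).map (algebraMap ℚ ℂ)).trace) • (Y i).map (algebraMap ℚ ℂ) := by
  let _ : Invertible (2 : ℚ) := invertibleOfNonzero two_ne_zero
  have hs : LinearMap.IsSymm (tf I E) := ⟨fun x y => by
    rw [RingHom.id_apply, tf_apply, tf_apply, trace_mul_comm]⟩
  obtain ⟨e, he⟩ := LinearMap.BilinForm.exists_orthogonal_basis hs
  have hsep : (tf I E).SeparatingLeft := by
    intro X hX
    have h1 := nd _ X.2 (by
      intro Y hY
      have h2 := Ul_descent I E hY
      clear hY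
      induction h2 using Submodule.span_induction with
      | mem Z hZ =>
        obtain ⟨Y', rfl, hY'⟩ := hZ
        have h3 := hX ⟨Y', hY'⟩
        rw [tf_apply] at h3
        rw [trace_map, h3, map_zero]
      | zero => rw [mul_zero, trace_zero]
      | add Z Z' _ _ h1 h2 => rw [mul_add, trace_add, h1, h2, add_zero]
      | smul c Z _ h1 => rw [mul_smul_comm, trace_smul, h1, smul_zero])
    apply Subtype.ext
    apply Matrix.map_injective (algebraMap ℚ ℂ).injective
    change (X : Matrix n n ℚ).map (algebraMap ℚ ℂ) = (0 : Matrix n n ℚ).map (algebraMap ℚ ℂ)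
    rw [h1]
    exact (Matrix.map_zero _ (map_zero _)).symm
  have hne := he.not_isOrtho_basis_self_of_separatingLeft hsep
  refine ⟨_, fun i => (e i : Matrix n n ℚ), fun i => tf I E (e i) (e i), hne, fun i => (e i).2,
    ?_, ?_⟩
  · intro i j
    split_ifs with h
    · subst h
      rfl
    · exact he h
  · intro Z hZ
    have h1 := Ul_descent I E hZ
    clear hZ
    induction h1 using Submodule.span_induction with
    | mem Z hZ =>
      obtain ⟨Y, rfl, hY⟩ := hZ
      have h2 := e.sum_repr (⟨Y, hY⟩ : UQ I E)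
      have h3 : Y = ∑ i, (e.repr (⟨Y, hY⟩ : UQ I E)) i • (e i : Matrix n n ℚ) := by
        have h4 := congrArg (fun z : UQ I E => (z : Matrix n n ℚ)) h2
        simp only [Submodule.coe_sum, Submodule.coe_smul] at h4
        exact h4.symm
      have h5 : ∀ j, (Y * (e j : Matrix n n ℚ)).trace =
          (e.repr (⟨Y, hY⟩ : UQ I E)) j * tf I E (e j) (e j) := by
        intro j
        conv_lhs => rw [h3]
        rw [Finset.sum_mul, trace_sum, Finset.sum_eq_single j]
        · rw [smul_mul_assoc, trace_smul, smul_eq_mul]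
          rfl
        · intro i _ hij
          rw [smul_mul_assoc, trace_smul]
          have : ((e i : Matrix n n ℚ) * (e j : Matrix n n ℚ)).trace = 0 := he hij
          rw [this, smul_zero]
        · intro h
          exact absurd (Finset.mem_univ _) h
      have h6 : Y.map (algebraMap ℚ ℂ) = ∑ i, algebraMap ℚ ℂ ((e.repr (⟨Y, hY⟩ : UQ I E)) i) •
          (e i : Matrix n n ℚ).map (algebraMap ℚ ℂ) := by
        conv_lhs => rw [h3]
        ext a b
        simp only [Matrix.map_apply, Matrix.sum_apply, Matrix.smul_apply, smul_eq_mul, map_sum,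
          map_mul]
      conv_lhs => rw [h6]
      apply Finset.sum_congr rfl
      intro i _
      rw [trace_map, h5, map_mul]
      congr 1
      have : algebraMap ℚ ℂ (tf I E (e i) (e i)) ≠ 0 := (map_ne_zero _).2 (hne i)
      field_simp
    | zero => simp
    | add Z Z' _ _ h1 h2 =>
      conv_lhs => rw [h1, h2]
      rw [← Finset.sum_add_distrib]
      apply Finset.sum_congr rfl
      intro i _
      rw [← add_smul, ← mul_add, ← trace_add, ← add_mul]
    | smul c Z _ h1 =>
      conv_lhs => rw [h1]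
      rw [Finset.smul_sum]
      apply Finset.sum_congr rfl
      intro i _
      rw [smul_smul, smul_mul_assoc, trace_smul, smul_eq_mul]
      congr 1
      ring

/-! ### The tensor -/

theorem sum4 {R : Type*} [AddCommMonoid R] (g : (Fin 4 → n) → R) :
    ∑ β, g β = ∑ a, ∑ b, ∑ c, ∑ d, g ![a, b, c, d] := by
  let e : (n × n × n × n) ≃ (Fin 4 → n) :=
    { toFun := fun p => ![p.1, p.2.1, p.2.2.1, p.2.2.2]
      invFun := fun β => (β 0, β 1, β 2, β 3)
      left_inv := fun _ => rfl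
      right_inv := fun β => by
        funext i
        fin_cases i <;> rfl }
  rw [← e.sum_comp, Fintype.sum_prod_type]
  apply Finset.sum_congr rfl
  intro a _
  rw [Fintype.sum_prod_type]
  apply Finset.sum_congr rfl
  intro b _
  rw [Fintype.sum_prod_type]
  rfl

/-- the tensor -/
def tt (E : Matrix n n ℚ) {d : ℕ} (Y : Fin d → Matrix n n ℚ) (c : Fin d → ℚ) (β : Fin 4 → n) : ℚ :=
  ∑ i, (c i)⁻¹ * (E * Y i) (β 0) (β 1) * (E * Y i) (β 2) (β 3)

/-- its values -/
noncomputable def tv (E : Matrix n n ℚ) {d : ℕ} (Y : Fin d → Matrix n n ℚ) (c : Fin d → ℚ)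
    (x : Fin 4 → n → ℂ) : ℂ :=
  ∑ i, (algebraMap ℚ ℂ (c i))⁻¹ *
    (x 0 ⬝ᵥ ((E.map (algebraMap ℚ ℂ) * (Y i).map (algebraMap ℚ ℂ)) *ᵥ x 1)) *
      (x 2 ⬝ᵥ ((E.map (algebraMap ℚ ℂ) * (Y i).map (algebraMap ℚ ℂ)) *ᵥ x 3))

theorem tt_val (E : Matrix n n ℚ) {d : ℕ} (Y : Fin d → Matrix n n ℚ) (c : Fin d → ℚ)
    (x : Fin 4 → n → ℂ) :
    ∑ β, (tt E Y c β : ℂ) * ∏ j, x j (β j) = tv E Y c x := by
  rw [sum4]
  unfold tv tt
  have h1 : ∀ (A : Matrix n n ℂ) (u v : n → ℂ), u ⬝ᵥ (A *ᵥ v) = ∑ a, ∑ b, A a b * (u a * v b) := by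
    intro A u v
    simp only [dotProduct, mulVec, Finset.mul_sum]
    apply Finset.sum_congr rfl
    intro a _
    apply Finset.sum_congr rfl
    intro b _
    ring
  have h2 : ∀ i, E.map (algebraMap ℚ ℂ) * (Y i).map (algebraMap ℚ ℂ) =
      (E * Y i).map (algebraMap ℚ ℂ) := fun i => (Matrix.map_mul).symm
  simp only [h2, h1]
  have h3 : ∀ a b c' d' : n, (((∑ i, (c i)⁻¹ * (E * Y i) (![a, b, c', d'] 0) (![a, b, c', d'] 1) *
      (E * Y i) (![a, b, c', d'] 2) (![a, b, c', d'] 3) : ℚ)) : ℂ) *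
        ∏ j, x j (![a, b, c', d'] j) = ∑ i, (algebraMap ℚ ℂ (c i))⁻¹ *
      ((E * Y i).map (algebraMap ℚ ℂ) a b * (x 0 a * x 1 b)) *
      ((E * Y i).map (algebraMap ℚ ℂ) c' d' * (x 2 c' * x 3 d')) := by
    intro a b c' d'
    rw [Rat.cast_sum, Finset.sum_mul]
    apply Finset.sum_congr rfl
    intro i _
    simp only [Fin.prod_univ_four, Matrix.cons_val_zero, Matrix.cons_val_one, Matrix.cons_val,
      Rat.cast_mul, Rat.cast_inv, Matrix.map_apply, eq_ratCast]
    ring
  simp only [h3]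
  have prod4 : ∀ (r : ℂ) (P Q : n → n → ℂ), r * (∑ a, ∑ b, P a b) * (∑ a, ∑ b, Q a b) =
      ∑ a, ∑ b, ∑ c', ∑ d', r * P a b * Q c' d' := by
    intro r P Q
    have e1 : r * (∑ a, ∑ b, P a b) = ∑ a, ∑ b, r * P a b := by simp only [Finset.mul_sum]
    rw [e1, Finset.sum_mul]
    apply Finset.sum_congr rfl
    intro a _
    rw [Finset.sum_mul]
    apply Finset.sum_congr rfl
    intro b _
    rw [Finset.mul_sum]
    apply Finset.sum_congr rfl
    intro c' _
    rw [Finset.mul_sum]
  have comm4 : ∀ f : Fin d → n → n → n → n → ℂ, ∑ i, ∑ a, ∑ b, ∑ c', ∑ d', f i a b c' d' =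
      ∑ a, ∑ b, ∑ c', ∑ d', ∑ i, f i a b c' d' := by
    intro f
    rw [Finset.sum_comm]
    apply Finset.sum_congr rfl
    intro a _
    rw [Finset.sum_comm]
    apply Finset.sum_congr rfl
    intro b _
    rw [Finset.sum_comm]
    apply Finset.sum_congr rfl
    intro c' _
    rw [Finset.sum_comm]
  simp only [prod4]
  rw [comm4]

end Pool.Agent.MT100G.H46
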