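import Pool.Agent.Helper46_MTG.Bas
import Pool.Agent.MT100G.Stmts

/-! MT100-GEN, module HDF: invariance of the tensor. -/

set_option autoImplicit false
set_option linter.unusedSectionVars false

namespace Pool.Agent.MT100G.H46

open MvPolynomial Matrix Module Pool.Agent.Helper78_MT Pool.Agent.Helper3_MT
  Pool.Agent.Helper46_MT Pool.Agent.MT100

variable {n : Type*} [Fintype n] [DecidableEq n] {w : ℕ} {E : Matrix n n ℚ}
  {π : ℕ → Matrix n n ℂ} {V : ℕ → Submodule ℂ (n → ℂ)} {I : Set (MvPolynomial (n × n) ℚ)}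

/-- an orthogonal basis of the Lie algebra -/
structure OB (I : Set (MvPolynomial (n × n) ℚ)) (E : Matrix n n ℚ) {d : ℕ}
    (Y : Fin d → Matrix n n ℚ) (c : Fin d → ℚ) : Prop where
  ne : ∀ i, c i ≠ 0
  mem : ∀ i, (Y i).map (algebraMap ℚ ℂ) ∈ Ul I E
  orth : ∀ i j, (Y i * Y j).trace = if i = j then c i else 0
  exp : ∀ Z ∈ Ul I E, Z = ∑ i, ((algebraMap ℚ ℂ (c i))⁻¹ *
        (Z * (Y i).map (algebraMap ℚ ℂ)).trace) • (Y i).map (algebraMap ℚ ℂ)

/-- `Z ↦ u F Z v` -/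
noncomputable def phi (F : Matrix n n ℂ) (u v : n → ℂ) : Matrix n n ℂ →ₗ[ℂ] ℂ where
  toFun := fun Z => u ⬝ᵥ ((F * Z) *ᵥ v)
  map_add' := fun A B => by rw [mul_add, add_mulVec, dotProduct_add]
  map_smul' := fun r A => by
    rw [mul_smul_comm, smul_mulVec, dotProduct_smul, RingHom.id_apply]

theorem phi_apply (F : Matrix n n ℂ) (u v : n → ℂ) (Z : Matrix n n ℂ) :
    phi F u v Z = u ⬝ᵥ ((F * Z) *ᵥ v) := rfl

variable {d : ℕ} {Y : Fin d → Matrix n n ℚ} {c : Fin d → ℚ}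

theorem tv_phi (x : Fin 4 → n → ℂ) : tv E Y c x = ∑ i, (algebraMap ℚ ℂ (c i))⁻¹ *
    phi (E.map (algebraMap ℚ ℂ)) (x 0) (x 1) ((Y i).map (algebraMap ℚ ℂ)) *
      phi (E.map (algebraMap ℚ ℂ)) (x 2) (x 3) ((Y i).map (algebraMap ℚ ℂ)) := rfl

/-- invariance of the Casimir element -/
theorem OB.casimir (h : OB I E Y c) {g g' : Matrix n n ℂ} (hgg' : g' * g = 1)
    (hg : ∀ Z ∈ Ul I E, g * Z * g' ∈ Ul I E) (hg' : ∀ Z ∈ Ul I E, g' * Z * g ∈ Ul I E)
    (φ ψ : Matrix n n ℂ →ₗ[ℂ] ℂ) :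
    ∑ i, (algebraMap ℚ ℂ (c i))⁻¹ * φ (g' * (Y i).map (algebraMap ℚ ℂ) * g) *
      ψ (g' * (Y i).map (algebraMap ℚ ℂ) * g) =
    ∑ i, (algebraMap ℚ ℂ (c i))⁻¹ * φ ((Y i).map (algebraMap ℚ ℂ)) *
      ψ ((Y i).map (algebraMap ℚ ℂ)) := by
  obtain ⟨y, hy⟩ : ∃ y : Fin d → Matrix n n ℂ, ∀ i, y i = (Y i).map (algebraMap ℚ ℂ) :=
    ⟨_, fun _ => rfl⟩
  obtain ⟨k, hk⟩ : ∃ k : Fin d → ℂ, ∀ i, k i = (algebraMap ℚ ℂ (c i))⁻¹ := ⟨_, fun _ => rfl⟩
  simp only [← hy, ← hk]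
  have hexp : ∀ Z ∈ Ul I E, Z = ∑ i, (k i * (Z * y i).trace) • y i := by
    intro Z hZ
    simp only [hy, hk]
    exact h.exp Z hZ
  have hmem : ∀ i, y i ∈ Ul I E := fun i => by rw [hy]; exact h.mem i
  have h1 : ∀ i, φ (g' * y i * g) = ∑ j, k j * (g' * y i * g * y j).trace * φ (y j) := by
    intro i
    conv_lhs => rw [hexp _ (hg' _ (hmem i))]
    rw [map_sum]
    apply Finset.sum_congr rfl
    intro j _
    rw [map_smul, smul_eq_mul]
  have h2 : ∀ j, ψ (y j) = ∑ i, k i * (g' * y i * g * y j).trace * ψ (g' * y i * g) := by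
    intro j
    have h3 : y j = g' * (g * y j * g') * g := by
      calc y j = (g' * g) * y j * (g' * g) := by rw [hgg', one_mul, mul_one]
        _ = _ := by simp only [mul_assoc]
    have h4 := hexp _ (hg _ (hmem j))
    have h5 : y j = ∑ i, (k i * (g * y j * g' * y i).trace) • (g' * y i * g) := by
      conv_lhs => rw [h3, h4]
      rw [Finset.mul_sum, Finset.sum_mul]
      apply Finset.sum_congr rfl
      intro i _
      rw [mul_smul_comm, smul_mul_assoc]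
    conv_lhs => rw [h5]
    rw [map_sum]
    apply Finset.sum_congr rfl
    intro i _
    rw [map_smul, smul_eq_mul]
    congr 2
    calc (g * y j * g' * y i).trace = (g * (y j * g' * y i)).trace := by simp only [mul_assoc]
      _ = ((y j * g' * y i) * g).trace := trace_mul_comm _ _
      _ = (y j * (g' * y i * g)).trace := by simp only [mul_assoc]
      _ = _ := trace_mul_comm _ _
  calc ∑ i, k i * φ (g' * y i * g) * ψ (g' * y i * g)
      = ∑ i, ∑ j, k i * (k j * (g' * y i * g * y j).trace * φ (y j)) * ψ (g' * y i * g) := by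
        apply Finset.sum_congr rfl
        intro i _
        rw [h1, Finset.mul_sum, Finset.sum_mul]
    _ = ∑ j, ∑ i, k i * (k j * (g' * y i * g * y j).trace * φ (y j)) * ψ (g' * y i * g) :=
        Finset.sum_comm
    _ = ∑ j, k j * φ (y j) * ψ (y j) := by
        apply Finset.sum_congr rfl
        intro j _
        rw [h2 j, Finset.mul_sum]
        apply Finset.sum_congr rfl
        intro i _
        ring

/-- transformation of the values by similitudes -/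
theorem phi_sim {F g g' : Matrix n n ℂ} {μ : ℂ} (hgg : g * g' = 1) (hg : gᵀ * F * g = μ • F)
    (u v : n → ℂ) (Z : Matrix n n ℂ) :
    phi F (g *ᵥ u) (g *ᵥ v) Z = μ * phi F u v (g' * Z * g) := by
  have h1 : gᵀ * F = μ • (F * g') := by
    calc gᵀ * F = gᵀ * F * (g * g') := by rw [hgg, mul_one]
      _ = (gᵀ * F * g) * g' := by simp only [mul_assoc]
      _ = _ := by rw [hg, smul_mul_assoc]
  rw [phi_apply, phi_apply, mulVec_mulVec, ← vecMul_transpose g u, ← dotProduct_mulVec, mulVec_mulVec]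
  have h2 : gᵀ * (F * Z * g) = μ • (F * (g' * Z * g)) := by
    calc gᵀ * (F * Z * g) = (gᵀ * F) * Z * g := by simp only [mul_assoc]
      _ = _ := by rw [h1, smul_mul_assoc, smul_mul_assoc]; simp only [mul_assoc]
  rw [h2, smul_mulVec, dotProduct_smul, smul_eq_mul]

theorem OB.tv_sim (h : OB I E Y c) {g g' : Matrix n n ℂ} {μ : ℂ} (hgg : g * g' = 1)
    (hgg' : g' * g = 1) (hμ : gᵀ * E.map (algebraMap ℚ ℂ) * g = μ • E.map (algebraMap ℚ ℂ))
    (hg : ∀ Z ∈ Ul I E, g * Z * g' ∈ Ul I E) (hg' : ∀ Z ∈ Ul I E, g' * Z * g ∈ Ul I E)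
    (x : Fin 4 → n → ℂ) : tv E Y c (fun j => g *ᵥ x j) = μ ^ 2 * tv E Y c x := by
  have h1 := h.casimir hgg' hg hg' (phi (E.map (algebraMap ℚ ℂ)) (x 0) (x 1))
    (phi (E.map (algebraMap ℚ ℂ)) (x 2) (x 3))
  rw [tv_phi, tv_phi, ← h1, Finset.mul_sum]
  apply Finset.sum_congr rfl
  intro i _
  rw [phi_sim hgg hμ, phi_sim hgg hμ]
  ring

/-- the multilinear form -/
noncomputable def tvM (E : Matrix n n ℚ) {d : ℕ} (Y : Fin d → Matrix n n ℚ) (c : Fin d → ℚ) :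
    MultilinearMap ℂ (fun _ : Fin 4 => n → ℂ) ℂ :=
  ∑ β : Fin 4 → n, (tt E Y c β : ℂ) •
    (MultilinearMap.mkPiAlgebra ℂ (Fin 4) ℂ).compLinearMap fun j => LinearMap.proj (β j)

theorem tvM_apply (x : Fin 4 → n → ℂ) : tvM E Y c x = tv E Y c x := by
  rw [← tt_val, tvM, _root_.sum_apply]
  apply Finset.sum_congr rfl
  intro β _
  simp

/-- the torus acts on the pieces -/
theorem Tc_piece (h : Proj w E π) (h2 : ∀ p, ∀ x ∈ V p, π p *ᵥ x = x)
    (ht : ∀ p, w < p → V p = ⊥) (t : ℂ) {p : ℕ} {x : n → ℂ} (hx : x ∈ V p) :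
    Tc w π t *ᵥ x = t ^ p • x := by
  by_cases hp : p ≤ w
  · conv_lhs => rw [← h2 p x hx]
    unfold Tc
    rw [mulVec_mulVec, h.mul_sum (fun p => t ^ p) hp, smul_mulVec, h2 p x hx]
  · rw [ht p (by omega), Submodule.mem_bot] at hx
    rw [hx, mulVec_zero, smul_zero]

/-- (a): the tensor is a Hodge tensor -/
theorem OB.hodge (h : OB I E Y c) (hπ : Proj w E π) (hw : 1 ≤ w) (hG : IsAlgSubgroup I)
    (hI : ∀ z : ℂ, z ≠ 0 → hz w π z ∈ zeros I ℂ) (h2 : ∀ p, ∀ x ∈ V p, π p *ᵥ x = x)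
    (ht : ∀ p, w < p → V p = ⊥) {p : Fin 4 → ℕ} {x : Fin 4 → n → ℂ} (hx : ∀ j, x j ∈ V (p j))
    (hp : ∑ j, p j ≠ 2 * w) : tv E Y c x = 0 := by
  have h2' : (2 : ℂ) ≠ 0 := two_ne_zero
  have e1 := hπ.Tc_inv h2'
  have e2 : Tc w π (2 : ℂ)⁻¹ * Tc w π 2 = 1 := by rw [hπ.Tc_mul, inv_mul_cancel₀ h2', hπ.Tc_one]
  have h3 := h.tv_sim e1 e2 (hπ.T_sim 2) (fun Z hZ => Ul_conj hπ hw hG hI h2' hZ) (fun Z hZ => by
    have := Ul_conj hπ hw hG hI (inv_ne_zero h2') hZ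
    rwa [inv_inv] at this) x
  have h4 : tv E Y c (fun j => Tc w π 2 *ᵥ x j) = (2 : ℂ) ^ (∑ j, p j) * tv E Y c x := by
    have h5 : (fun j => Tc w π 2 *ᵥ x j) = fun j => (2 : ℂ) ^ p j • x j :=
      funext fun j => Tc_piece hπ h2 ht 2 (hx j)
    rw [h5, ← tvM_apply, ← tvM_apply, MultilinearMap.map_smul_univ, smul_eq_mul,
      Finset.prod_pow_eq_pow_sum]
  rw [h4, ← pow_mul] at h3
  have h6 : ((2 : ℂ) ^ (∑ j, p j) - 2 ^ (w * 2)) * tv E Y c x = 0 := by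
    rw [sub_mul, h3, sub_self]
  rcases mul_eq_zero.1 h6 with h7 | h7
  · exfalso
    apply hp
    have h8 : (2 : ℂ) ^ (∑ j, p j) = 2 ^ (w * 2) := sub_eq_zero.1 h7
    have h9 : (2 : ℕ) ^ (∑ j, p j) = 2 ^ (w * 2) := by exact_mod_cast h8
    have := Nat.pow_right_injective (le_refl 2) h9
    omega
  · exact h7

end Pool.Agent.MT100G.H46
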