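import Pool.Agent.Helper46_MT.Final

/-! MT100-GEN, module HDF: positivity of the trace form on the Lie algebra of the Hodge group. -/

set_option autoImplicit false
set_option linter.unusedSectionVars false

namespace Pool.Agent.MT100G.H46

open MvPolynomial Matrix Module Pool.Agent.Helper78_MT Pool.Agent.Helper3_MT
  Pool.Agent.Helper46_MT Pool.Agent.MT100

open scoped ComplexOrder

variable {n : Type*} [Fintype n] [DecidableEq n] {w : ℕ} {E : Matrix n n ℚ}
  {π : ℕ → Matrix n n ℂ} {V : ℕ → Submodule ℂ (n → ℂ)} {I : Set (MvPolynomial (n × n) ℚ)}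

open scoped MatrixOrder in
theorem posdef_fac {M : Matrix n n ℂ} (hM : M.PosDef) :
    ∃ S : Matrix n n ℂ, IsUnit S ∧ M = Sᴴ * S := by
  obtain ⟨S, hS, h⟩ := CStarAlgebra.isStrictlyPositive_iff_eq_star_mul_self.mp
    hM.isStrictlyPositive
  exact ⟨S, hS, h⟩

/-- the Weil operator -/
noncomputable def Cw (w : ℕ) (π : ℕ → Matrix n n ℂ) : Matrix n n ℂ :=
  ∑ p ∈ Finset.range (w + 1), (Complex.I ^ p * (-Complex.I) ^ (w - p)) • π p

theorem Cw_eq : Cw w π = hz w π Complex.I := by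
  unfold Cw hz
  simp only [Complex.conj_I]

theorem Cw_sq (h : Proj w E π) (hw : Odd w) : Cw w π * Cw w π = -1 := by
  unfold Cw
  rw [h.sum_sum]
  have h1 : ∀ p ∈ Finset.range (w + 1), ((Complex.I ^ p * (-Complex.I) ^ (w - p)) *
      (Complex.I ^ p * (-Complex.I) ^ (w - p))) • π p = (-1 : ℂ) • π p := by
    intro p hp
    have hp' := Nat.lt_succ_iff.1 (Finset.mem_range.1 hp)
    congr 1
    calc Complex.I ^ p * (-Complex.I) ^ (w - p) * (Complex.I ^ p * (-Complex.I) ^ (w - p))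
        = (Complex.I * Complex.I) ^ p * ((-Complex.I) * (-Complex.I)) ^ (w - p) := by
          rw [mul_pow, mul_pow]; ring
      _ = (-1) ^ p * (-1) ^ (w - p) := by
          rw [neg_mul_neg, Complex.I_mul_I]
      _ = (-1) ^ w := by rw [← pow_add, Nat.add_sub_cancel' hp']
      _ = -1 := hw.neg_one_pow
  rw [Finset.sum_congr rfl h1, ← Finset.smul_sum, h.sum, neg_one_smul]

theorem Cw_conj (h : Proj w E π) : (Cw w π).map (starRingEnd ℂ) = Cw w π := by
  have h1 : (Cw w π).map (starRingEnd ℂ) = ∑ p ∈ Finset.range (w + 1),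
      ((-Complex.I) ^ p * Complex.I ^ (w - p)) • π (w - p) := by
    ext i j
    unfold Cw
    rw [Matrix.map_apply, Matrix.sum_apply, map_sum, Matrix.sum_apply]
    apply Finset.sum_congr rfl
    intro p hp
    have hp' := Nat.lt_succ_iff.1 (Finset.mem_range.1 hp)
    rw [Matrix.smul_apply, smul_eq_mul, map_mul, map_mul, map_pow, map_pow, map_neg,
      Complex.conj_I, neg_neg, ← h.conj p hp', Matrix.smul_apply, Matrix.map_apply, smul_eq_mul]
  rw [h1, ← Finset.sum_range_reflect]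
  unfold Cw
  apply Finset.sum_congr rfl
  intro p hp
  have hp' := Nat.lt_succ_iff.1 (Finset.mem_range.1 hp)
  have e1 : w + 1 - 1 - p = w - p := by omega
  have e2 : w - (w - p) = p := by omega
  rw [e1, e2, mul_comm]

theorem Cw_form (h : Proj w E π) :
    (Cw w π)ᵀ * E.map (algebraMap ℚ ℂ) * Cw w π = E.map (algebraMap ℚ ℂ) := by
  unfold Cw
  rw [h.form]
  conv_rhs => rw [h.form_one]
  apply Finset.sum_congr rfl
  intro p hp
  have hp' := Nat.lt_succ_iff.1 (Finset.mem_range.1 hp)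
  have e2 : w - (w - p) = p := by omega
  have e3 : Complex.I ^ p * (-Complex.I) ^ (w - p) *
      (Complex.I ^ (w - p) * (-Complex.I) ^ (w - (w - p))) = 1 := by
    rw [e2]
    calc Complex.I ^ p * (-Complex.I) ^ (w - p) * (Complex.I ^ (w - p) * (-Complex.I) ^ p)
        = (Complex.I * (-Complex.I)) ^ p * (Complex.I * (-Complex.I)) ^ (w - p) := by
          rw [mul_pow, mul_pow]; ring
      _ = 1 := by
          rw [mul_neg, Complex.I_mul_I, neg_neg, one_pow, one_pow, one_mul]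
  rw [e3, one_smul]

/-- the Gram matrix is positive definite -/
theorem gram (hV : PolHodge w E V) (hw : Odd w) (h : Proj w E π)
    (h1 : ∀ p x, π p *ᵥ x ∈ V p) :
    (-(E.map (algebraMap ℚ ℂ) * Cw w π)).PosDef := by
  have hEs : Eᵀ = -E := by
    have := hV.symm
    rwa [Odd.neg_one_pow hw, neg_one_smul] at this
  have hFs := skew_map hEs
  obtain ⟨F, hF⟩ : ∃ F, F = E.map (algebraMap ℚ ℂ) := ⟨_, rfl⟩
  obtain ⟨C, hC⟩ : ∃ C, C = Cw w π := ⟨_, rfl⟩
  have hCC : C * C = -1 := by rw [hC]; exact Cw_sq h hw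
  have hCF : Cᵀ * F * C = F := by rw [hC, hF]; exact Cw_form h
  have hCb : C.map (starRingEnd ℂ) = C := by rw [hC]; exact Cw_conj h
  rw [← hF, ← hC]
  rw [← hF] at hFs
  have hCF' : Cᵀ * F = -(F * C) := by
    calc Cᵀ * F = -(Cᵀ * F * (C * C)) := by rw [hCC, mul_neg, mul_one, neg_neg]
      _ = -((Cᵀ * F * C) * C) := by simp only [mul_assoc]
      _ = _ := by rw [hCF]
  refine PosDef.of_dotProduct_mulVec_pos ?_ ?_
  · have hFr : F.map (starRingEnd ℂ) = F := by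
      rw [hF]
      exact rat_conj E
    have e1 : Cᴴ = Cᵀ := by
      conv_rhs => rw [← hCb]
      rfl
    have e2 : Fᴴ = Fᵀ := by
      conv_rhs => rw [← hFr]
      rfl
    rw [IsHermitian, conjTranspose_neg, conjTranspose_mul, e1, e2, hFs, mul_neg, neg_neg]
    exact hCF'
  · intro x hx
    have hval : star x ⬝ᵥ (-(F * C) *ᵥ x) = ∑ p ∈ Finset.range (w + 1),
        Complex.I ^ p * (-Complex.I) ^ (w - p) *
          ((π p *ᵥ x) ⬝ᵥ (F *ᵥ star (π p *ᵥ x))) := by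
      have e1 : star x ⬝ᵥ (-(F * C) *ᵥ x) = (C *ᵥ x) ⬝ᵥ (F *ᵥ star x) := by
        rw [← hCF', dotProduct_comm (C *ᵥ x), ← mulVec_mulVec, dotProduct_mulVec (star x),
          vecMul_transpose]
        have e2 : (C *ᵥ star x) ⬝ᵥ (F *ᵥ x) = -((F *ᵥ (C *ᵥ star x)) ⬝ᵥ x) := by
          rw [dotProduct_mulVec, ← vecMul_transpose F, hFs, vecMul_neg, neg_dotProduct, neg_neg]
        have e3 : (F *ᵥ star x) ⬝ᵥ (C *ᵥ x) = ((Cᵀ * F) *ᵥ star x) ⬝ᵥ x := by
          rw [dotProduct_mulVec, ← mulVec_mulVec, ← vecMul_transpose Cᵀ, transpose_transpose]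
        rw [e2, e3, hCF', neg_mulVec, ← mulVec_mulVec, neg_dotProduct]
      have e4 : C *ᵥ x = ∑ p ∈ Finset.range (w + 1),
          (Complex.I ^ p * (-Complex.I) ^ (w - p)) • (π p *ᵥ x) := by
        rw [hC]
        unfold Cw
        rw [sum_mulVec]
        apply Finset.sum_congr rfl
        intro p _
        rw [smul_mulVec]
      have e5 : star x = ∑ q ∈ Finset.range (w + 1), star (π q *ᵥ x) := by
        rw [← star_sum, ← sum_mulVec, h.sum, one_mulVec]
      rw [e1, e4, e5, sum_dotProduct]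
      apply Finset.sum_congr rfl
      intro p hp
      have hp' := Nat.lt_succ_iff.1 (Finset.mem_range.1 hp)
      rw [smul_dotProduct, smul_eq_mul, mulVec_sum, dotProduct_sum, Finset.sum_eq_single p]
      · intro q hq hne
        have hq' := Nat.lt_succ_iff.1 (Finset.mem_range.1 hq)
        rw [hF]
        exact hV.orth p (w - q) (by omega) _ (h1 p x) _ (hV.conj q hq' _ (h1 q x))
      · intro hp''
        exact absurd hp hp''
    rw [hval]
    have hnn : ∀ p ∈ Finset.range (w + 1), 0 ≤ Complex.I ^ p * (-Complex.I) ^ (w - p) *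
          ((π p *ᵥ x) ⬝ᵥ (F *ᵥ star (π p *ᵥ x))) := by
      intro p hp
      have hp' := Nat.lt_succ_iff.1 (Finset.mem_range.1 hp)
      by_cases hx0 : π p *ᵥ x = 0
      · rw [hx0, zero_dotProduct, mul_zero]
      · obtain ⟨t, ht, h2⟩ := hV.pos p hp' _ (h1 p x) hx0
        rw [hF, h2]
        exact_mod_cast ht.le
    obtain ⟨p, hp, hpx⟩ : ∃ p ∈ Finset.range (w + 1), π p *ᵥ x ≠ 0 := by
      by_contra hcon
      apply hx
      have h2 : x = ∑ q ∈ Finset.range (w + 1), π q *ᵥ x := by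
        rw [← sum_mulVec, h.sum, one_mulVec]
      rw [h2]
      apply Finset.sum_eq_zero
      intro q hq
      exact not_not.1 fun h3 => hcon ⟨q, hq, h3⟩
    refine Finset.sum_pos' hnn ⟨p, hp, ?_⟩
    obtain ⟨t, ht, h2⟩ := hV.pos p (Nat.lt_succ_iff.1 (Finset.mem_range.1 hp)) _ (h1 p x) hpx
    rw [hF, h2]
    exact_mod_cast ht

theorem Ul_star {X : Matrix n n ℂ} (hX : X ∈ Ul I E) : X.map (starRingEnd ℂ) ∈ Ul I E := by
  have e4 : ∀ A B : Matrix n n ℂ, (A * B).map (starRingEnd ℂ) =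
      A.map (starRingEnd ℂ) * B.map (starRingEnd ℂ) := fun A B =>
    Matrix.map_mul (f := starRingEnd ℂ)
  refine ⟨lie_aut (starRingAut : ℂ ≃+* ℂ) hX.1, ?_⟩
  have h1 : (Xᵀ * E.map (algebraMap ℚ ℂ) + E.map (algebraMap ℚ ℂ) * X).map (starRingEnd ℂ) =
      (0 : Matrix n n ℂ).map (starRingEnd ℂ) :=
    congrArg (fun M : Matrix n n ℂ => M.map (starRingEnd ℂ)) hX.2
  rw [Matrix.map_add _ (map_add _), e4, e4, Matrix.map_zero _ (map_zero _), rat_conj] at h1
  exact h1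

/-- the trace form is nondegenerate -/
theorem trace_nd (hV : PolHodge w E V) (hw : Odd w) (h : Proj w E π)
    (h1 : ∀ p x, π p *ᵥ x ∈ V p) (hG : IsAlgSubgroup I)
    (hI : ∀ z : ℂ, z ≠ 0 → hz w π z ∈ zeros I ℂ) {X : Matrix n n ℂ} (hX : X ∈ Ul I E)
    (hX0 : ∀ Y ∈ Ul I E, (X * Y).trace = 0) : X = 0 := by
  have hw1 : 1 ≤ w := hw.pos
  obtain ⟨S, hS, hSM⟩ := posdef_fac (gram hV hw h h1)
  have hEs : Eᵀ = -E := by
    have := hV.symm
    rwa [Odd.neg_one_pow hw, neg_one_smul] at this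
  obtain ⟨F, hF⟩ : ∃ F, F = E.map (algebraMap ℚ ℂ) := ⟨_, rfl⟩
  obtain ⟨C, hC⟩ : ∃ C, C = Cw w π := ⟨_, rfl⟩
  obtain ⟨Xb, hXb⟩ : ∃ Xb, Xb = X.map (starRingEnd ℂ) := ⟨_, rfl⟩
  have hCC : C * C = -1 := by rw [hC]; exact Cw_sq h hw
  -- the adjoint
  have hXs : C * Xb * C ∈ Ul I E := by
    have hI0 : Complex.I ≠ 0 := Complex.I_ne_zero
    have e1 : C = (starRingEnd ℂ Complex.I) ^ w • Tc w π (Complex.I / starRingEnd ℂ Complex.I) := by
      rw [hC, Cw_eq, hz_eq hI0]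
    have e2 : Complex.I / starRingEnd ℂ Complex.I = -1 := by
      rw [Complex.conj_I, div_neg, div_self hI0]
    rw [e2] at e1
    have h2 := Ul_conj h hw1 hG hI (neg_ne_zero.2 one_ne_zero) (Ul_star hX)
    have e3 : ((-1 : ℂ))⁻¹ = -1 := by norm_num
    rw [e3, ← hXb] at h2
    rw [e1, smul_mul_assoc, smul_mul_smul_comm]
    exact Submodule.smul_mem _ _ h2
  have h2 := hX0 _ hXs
  -- the adjoint for the Gram matrix
  rw [← hF, ← hC] at hSM
  have hXe := (Ul_star hX).2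
  rw [← hXb, ← hF] at hXe
  have hadj : (-(F * C)) * (C * Xb * C) = Xᴴ * (-(F * C)) := by
    have e1 : Xᴴ = Xbᵀ := by rw [hXb]; rfl
    have e2 : Xbᵀ * F = -(F * Xb) := eq_neg_of_add_eq_zero_left hXe
    calc (-(F * C)) * (C * Xb * C) = -(F * (C * C) * Xb * C) := by
          simp only [neg_mul, mul_assoc]
      _ = F * Xb * C := by rw [hCC, mul_neg, mul_one, neg_mul, neg_mul, neg_neg]
      _ = -(Xbᵀ * F) * C := by rw [e2, neg_neg]
      _ = _ := by rw [e1, neg_mul, mul_neg, mul_assoc]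
  rw [hSM] at hadj
  have hSd : IsUnit S.det := (isUnit_iff_isUnit_det S).1 hS
  have hSi : S * S⁻¹ = 1 := mul_nonsing_inv S hSd
  have hSi' : S⁻¹ * S = 1 := nonsing_inv_mul S hSd
  have h3 : (S * X * S⁻¹) * (S * X * S⁻¹)ᴴ = S * (X * (C * Xb * C)) * S⁻¹ := by
    have e1 : (S⁻¹)ᴴ * Sᴴ = 1 := by rw [← conjTranspose_mul, hSi, conjTranspose_one]
    have e2 : S * (C * Xb * C) = (S⁻¹)ᴴ * Xᴴ * Sᴴ * S := by
      calc S * (C * Xb * C) = ((S⁻¹)ᴴ * Sᴴ) * (S * (C * Xb * C)) := by rw [e1, one_mul]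
        _ = (S⁻¹)ᴴ * (Sᴴ * S * (C * Xb * C)) := by simp only [mul_assoc]
        _ = _ := by rw [hadj]; simp only [mul_assoc]
    have e3 : C * Xb * C = S⁻¹ * (S⁻¹)ᴴ * Xᴴ * Sᴴ * S := by
      calc C * Xb * C = (S⁻¹ * S) * (C * Xb * C) := by rw [hSi', one_mul]
        _ = S⁻¹ * (S * (C * Xb * C)) := by simp only [mul_assoc]
        _ = _ := by rw [e2]; simp only [mul_assoc]
    rw [e3, conjTranspose_mul, conjTranspose_mul]
    have e4 : S * (X * (S⁻¹ * (S⁻¹)ᴴ * Xᴴ * Sᴴ * S)) * S⁻¹ =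
        S * X * S⁻¹ * ((S⁻¹)ᴴ * (Xᴴ * Sᴴ)) * (S * S⁻¹) := by simp only [mul_assoc]
    rw [e4, hSi, mul_one]
  have h4 : ((S * X * S⁻¹) * (S * X * S⁻¹)ᴴ).trace = 0 := by
    rw [h3, trace_mul_comm, ← mul_assoc, hSi', one_mul]
    exact h2
  rw [trace_mul_conjTranspose_self_eq_zero_iff] at h4
  calc X = (S⁻¹ * S) * X * (S⁻¹ * S) := by rw [hSi', one_mul, mul_one]
    _ = S⁻¹ * (S * X * S⁻¹) * S := by simp only [mul_assoc]
    _ = 0 := by rw [h4, mul_zero, zero_mul]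

end Pool.Agent.MT100G.H46
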